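import Pool.Agent.TH594.HA.Fin
import Pool.Agent.TH594.HE.Pt

/-!
# Einstein tensors: comparison with the space form of the same Ricci curvature
-/

set_option autoImplicit false

namespace Pool.Agent.TH594.HA

open Finset MeasureTheory Pool.Agent.TH594.HP Pool.Agent.TH594.HE Pool.Agent.TH594.HR
open Pool.Agent.W666.GB (AlgCurv gbc scal roundGB unitCurv CurvField)
open Pool.Agent.W669.HD (T4 gm cp negT addT unitT OpNonneg)

/-- the relative error -/
noncomputable def rate (m : ℕ) (x : ℝ) : ℝ := 8 * (x + 1) * Real.exp (4 * x) / m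

section ineq

variable {m : ℕ} {x : ℝ}

theorem quad_le (hx : 0 ≤ x) (hm : 12 * (x + 1) * Real.exp (4 * x) ≤ m) :
    12 + 60 * x + 48 * x ^ 2 ≤ m := by
  have e2 : 4 * x + 1 ≤ Real.exp (4 * x) := Real.add_one_le_exp _
  have h1 := mul_le_mul_of_nonneg_left e2 (by linarith : 0 ≤ 12 * (x + 1))
  nlinarith

theorem rate_le (hx : 0 ≤ x) (hm : 12 * (x + 1) * Real.exp (4 * x) ≤ m) : rate m x ≤ 2 / 3 := by
  have h1 := quad_le hx hm
  have hM : (0 : ℝ) < m := by nlinarith
  unfold rate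
  rw [div_le_iff₀ hM]
  linarith

theorem rate_nonneg (hx : 0 ≤ x) : 0 ≤ rate m x := by
  unfold rate
  positivity

/-- the power and the exponential -/
theorem pow_ge (hx : 0 ≤ x) (hxm : x < m) :
    Real.exp (-x) * (1 - x ^ 2 / (m - x)) ≤ (1 - x / m) ^ m := by
  have hM : (0 : ℝ) < m := by linarith
  have hd : 0 < (m : ℝ) - x := by linarith
  have ht : 0 < 1 - x / m := by
    rw [sub_pos, div_lt_one hM]; exact hxm
  have h1 : Real.exp (-(x / (m - x))) ≤ 1 - x / m := by
    have h2 : x / (m - x) + 1 ≤ Real.exp (x / (m - x)) := Real.add_one_le_exp _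
    have e : x / ((m : ℝ) - x) + 1 = (1 - x / m)⁻¹ := by
      have : (m : ℝ) - x ≠ 0 := hd.ne'
      field_simp
      ring
    rw [e] at h2
    rw [Real.exp_neg]
    exact inv_le_of_inv_le₀ ht h2
  have h3 : Real.exp (-(x / (m - x))) ^ m ≤ (1 - x / m) ^ m :=
    pow_le_pow_left₀ (Real.exp_pos _).le h1 m
  refine le_trans ?_ h3
  rw [← Real.exp_nat_mul]
  have e2 : (m : ℝ) * -(x / (m - x)) = -x + -(x ^ 2 / (m - x)) := by
    have : (m : ℝ) - x ≠ 0 := hd.ne'
    field_simp
    ring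
  rw [e2, Real.exp_add]
  have h4 : -(x ^ 2 / (m - x)) + 1 ≤ Real.exp (-(x ^ 2 / (m - x))) := Real.add_one_le_exp _
  exact mul_le_mul_of_nonneg_left (by linarith) (Real.exp_pos _).le

theorem pow_le_exp (hx : 0 ≤ x) (hxm : x < m) : (1 - x / m) ^ m ≤ Real.exp (-x) := by
  have hM : (0 : ℝ) < m := by linarith
  have ht : 0 < 1 - x / m := by
    rw [sub_pos, div_lt_one hM]; exact hxm
  have h1 : 1 - x / m ≤ Real.exp (-(x / m)) := by
    have := Real.add_one_le_exp (-(x / m))
    linarith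
  have h2 := pow_le_pow_left₀ ht.le h1 m
  rw [← Real.exp_nat_mul] at h2
  have e : (m : ℝ) * -(x / m) = -x := by field_simp
  rwa [e] at h2

theorem tail_le (hx : 0 ≤ x) (hm : 12 * (x + 1) * Real.exp (4 * x) ≤ m) :
    Real.exp (6 * x) * (1 / 2 : ℝ) ^ (m / 2) ≤ Real.exp (-x) * (1 / m) := by
  have h0 := quad_le hx hm
  have hM : (0 : ℝ) < m := by nlinarith
  obtain ⟨h, hh⟩ : ∃ h : ℕ, h = m / 2 := ⟨_, rfl⟩
  rw [← hh]
  have h1 : (m : ℝ) ≤ 2 * h + 1 := by
    have : m ≤ 2 * (m / 2) + 1 := by omega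
    rw [← hh] at this
    exact_mod_cast this
  have h2 : 30 * x + 11 / 2 ≤ h := by nlinarith
  have h3 : Real.exp (7 * x + h / 4) * 8 ≤ 2 ^ h := by
    have l2 : (0.6931471803 : ℝ) < Real.log 2 := Real.log_two_gt_d9
    have l3 : Real.log 2 < (0.6931471808 : ℝ) := Real.log_two_lt_d9
    have e1 : (2 : ℝ) ^ h = Real.exp ((h : ℝ) * Real.log 2) := by
      rw [← Real.log_pow, Real.exp_log (by positivity)]
    have e2 : (8 : ℝ) = Real.exp (3 * Real.log 2) := by
      rw [show (3 : ℝ) * Real.log 2 = Real.log (2 ^ 3) by rw [Real.log_pow]; norm_num,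
        Real.exp_log (by norm_num)]
      norm_num
    rw [e1, e2, ← Real.exp_add]
    refine Real.exp_le_exp.2 ?_
    have : (0 : ℝ) ≤ h := Nat.cast_nonneg h
    nlinarith
  have h4 : (m : ℝ) ≤ 8 * Real.exp (h / 4) := by
    have := Real.add_one_le_exp ((h : ℝ) / 4)
    linarith
  have h5 : Real.exp (7 * x) * m ≤ 2 ^ h := by
    refine le_trans ?_ h3
    rw [Real.exp_add]
    have := mul_le_mul_of_nonneg_left h4 (Real.exp_pos (7 * x)).le
    linarith
  have e6 : Real.exp (6 * x) = Real.exp (-x) * Real.exp (7 * x) := by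
    rw [← Real.exp_add]; congr 1; ring
  rw [e6, mul_assoc]
  refine mul_le_mul_of_nonneg_left ?_ (Real.exp_pos _).le
  rw [one_div, inv_pow, ← div_eq_mul_inv, div_le_div_iff₀ (by positivity) hM, one_mul]
  exact h5

/-- **the error in terms of the space form of the same Ricci curvature** -/
theorem rel_err (hx : 0 ≤ x) (hm : 12 * (x + 1) * Real.exp (4 * x) ≤ m) :
    err m (x / m) x + (Real.exp (-x) - (1 - x / m) ^ m) ≤ rate m x * (1 - x / m) ^ m := by
  have h0 := quad_le hx hm
  have hM12 : (12 : ℝ) ≤ m := by nlinarith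
  have hM : (0 : ℝ) < m := by linarith
  have hxm : x < m := by nlinarith
  have hd : 0 < (m : ℝ) - x := by linarith
  have hq := pow_ge hx hxm
  have ht := tail_le hx hm
  have E0 := Real.exp_pos (-x)
  have E4 : 1 ≤ Real.exp (4 * x) := Real.one_le_exp (by linarith)
  have E4' : 4 * x + 1 ≤ Real.exp (4 * x) := Real.add_one_le_exp _
  have e3 : Real.exp (3 * x) = Real.exp (-x) * Real.exp (4 * x) := by
    rw [← Real.exp_add]; congr 1; ring
  have f3 : x ^ 2 / (m - x) ≤ 1 / 48 := by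
    rw [div_le_iff₀ hd]; nlinarith
  have f4 : x ^ 2 / (m - x) ≤ x * Real.exp (4 * x) / (2 * m) := by
    rw [div_le_div_iff₀ hd (by positivity)]
    have g1 : x * (4 * x) ≤ x * Real.exp (4 * x) := mul_le_mul_of_nonneg_left (by linarith) hx
    have g2 : (m : ℝ) / 2 ≤ m - x := by nlinarith
    have g3 : x * Real.exp (4 * x) * (m / 2) ≤ x * Real.exp (4 * x) * (m - x) :=
      mul_le_mul_of_nonneg_left g2 (by positivity)
    have g4 := mul_le_mul_of_nonneg_right g1 (by linarith : 0 ≤ (m : ℝ) / 2)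
    nlinarith
  have f1 : 3 * Real.exp (3 * x) * (x / m + x / (m - 1)) ≤
      Real.exp (-x) * (7 * x * Real.exp (4 * x) / m) := by
    have g1 : 3 * (x / m + x / (m - 1)) ≤ 7 * x / m := by
      have g2 : x / ((m : ℝ) - 1) ≤ 4 / 3 * (x / m) := by
        rw [← mul_div_assoc, div_le_div_iff₀ (by linarith) hM]
        nlinarith
      have g3 : 7 * x / (m : ℝ) = 7 * (x / m) := by ring
      rw [g3]
      linarith
    rw [e3]
    have g4 := mul_le_mul_of_nonneg_left g1
      (by positivity : 0 ≤ Real.exp (-x) * Real.exp (4 * x))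
    have g5 : Real.exp (-x) * (7 * x * Real.exp (4 * x) / m) =
        Real.exp (-x) * Real.exp (4 * x) * (7 * x / m) := by ring
    rw [g5]
    linarith
  have f5 : Real.exp (-x) - (1 - x / m) ^ m ≤
      Real.exp (-x) * (x * Real.exp (4 * x) / (2 * m)) := by
    have := mul_le_mul_of_nonneg_left f4 E0.le
    linarith
  have f6 : err m (x / m) x + (Real.exp (-x) - (1 - x / m) ^ m) ≤
      Real.exp (-x) * (15 / 2 * (x + 1) * Real.exp (4 * x) / m) := by
    unfold err
    have g1 : 7 * x * Real.exp (4 * x) / m + 1 / m + x * Real.exp (4 * x) / (2 * m) ≤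
        15 / 2 * (x + 1) * Real.exp (4 * x) / m := by
      have g2 : 7 * x * Real.exp (4 * x) / m + 1 / m + x * Real.exp (4 * x) / (2 * m) =
          (15 / 2 * x * Real.exp (4 * x) + 1) / m := by
        field_simp
        ring
      rw [g2]
      refine div_le_div_of_nonneg_right ?_ hM.le
      nlinarith
    have g3 := mul_le_mul_of_nonneg_left g1 E0.le
    linarith
  refine f6.trans ?_
  have f7 : 47 / 48 * Real.exp (-x) ≤ (1 - x / m) ^ m := by
    refine le_trans ?_ hq
    have := mul_le_mul_of_nonneg_left (by linarith : 47 / 48 ≤ 1 - x ^ 2 / ((m : ℝ) - x)) E0.le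
    linarith
  have f8 := mul_le_mul_of_nonneg_left f7 (rate_nonneg (m := m) hx)
  refine le_trans ?_ f8
  unfold rate
  have g9 : 8 * (x + 1) * Real.exp (4 * x) / m * (47 / 48 * Real.exp (-x)) =
      Real.exp (-x) * (47 / 6 * (x + 1) * Real.exp (4 * x) / m) := by ring
  rw [g9]
  refine mul_le_mul_of_nonneg_left ?_ E0.le
  refine div_le_div_of_nonneg_right ?_ hM.le
  have : 0 ≤ (x + 1) * Real.exp (4 * x) := by positivity
  linarith

end ineq

section pointwise

variable {m : ℕ} {V : Type} [NormedAddCommGroup V] [InnerProductSpace ℝ V]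

theorem round_scale {c κ : ℝ} (hc : 0 < c) :
    roundGB m κ = (κ / c) ^ m * roundGB m c := by
  unfold roundGB
  rw [div_pow]
  field_simp

/-- **Einstein tensors, negative version** -/
theorem ein_neg (e : OrthonormalBasis (Fin m × Bool) ℝ V) {R : V → V → V → V → ℝ} {c κ : ℝ}
    (hR : AlgCurv R) (hc : 0 < c) (hκ : κ ≤ c)
    (hm : 12 * (m * (1 - κ / c) + 1) * Real.exp (4 * (m * (1 - κ / c))) ≤ m)
    (hop : OpNonneg (addT R fun x y z w => c * unitT x y z w)) (hE : Einstein e R (-κ)) :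
    |(-1) ^ m * gbc e R - roundGB m κ| ≤ rate m (m * (1 - κ / c)) * roundGB m κ := by
  have hs : 0 ≤ 1 - κ / c := by
    rw [sub_nonneg, div_le_one hc]; exact hκ
  obtain ⟨x, hx⟩ : ∃ x : ℝ, x = m * (1 - κ / c) := ⟨_, rfl⟩
  rw [← hx] at hm ⊢
  have hx0 : 0 ≤ x := by rw [hx]; positivity
  have h0 := quad_le hx0 hm
  have hM12 : (12 : ℝ) ≤ m := by nlinarith
  have hM : (0 : ℝ) < m := by linarith
  have hm2 : 2 ≤ m := by
    have : (2 : ℝ) ≤ m := by linarith
    exact_mod_cast this
  have hN : 0 < 2 * (m : ℝ) - 1 := by linarith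
  have hδ : 1 - κ / c = x / m := by rw [hx]; field_simp
  have hδ8 : 1 - κ / c ≤ 1 / 8 := by
    rw [hδ, div_le_iff₀ hM]; nlinarith
  have hric : ∀ v : V, ric e R v = -((2 * m - 1) * κ) * ‖v‖ ^ 2 := by
    intro v
    unfold ric
    rw [hE v v, real_inner_self_eq_norm_sq]
    ring
  have hcd : (1 - (1 - κ / c)) * c = κ := by field_simp; ring
  have h1 := asym_neg e hm2 hR hc hs hδ8 hop (fun v => by rw [hcd, hric v])
  have hd : defN e R c = x := by
    unfold defN
    rw [scal_ric]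
    have : ∑ j, ric e R (e j) = ∑ _j : Fin m × Bool, -((2 * m - 1) * κ) := by
      refine Finset.sum_congr rfl fun j _ => ?_
      rw [hric (e j), e.norm_eq_one j]; ring
    rw [this, Finset.sum_const, Finset.card_univ, nsmul_eq_mul, card_J, hx]
    have hN0 : 2 * (m : ℝ) - 1 ≠ 0 := hN.ne'
    have e1 : 2 * (m : ℝ) * -((2 * m - 1) * κ) / (2 * c * (2 * m - 1)) = -(m * κ) / c := by
      rw [div_eq_div_iff (by positivity) hc.ne']
      ring
    rw [e1]
    field_simp
    ring
  rw [hd, hδ] at h1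
  have hrp := Pool.Agent.W666.GB.roundGB_pos (m := m) hc
  have hq : (κ / c) ^ m = (1 - x / m) ^ m := by
    rw [← hδ]; congr 1; ring
  rw [round_scale (m := m) (κ := κ) hc, hq]
  have h2 := rel_err hx0 hm
  have hxm : x < m := by nlinarith
  have h3 := pow_le_exp hx0 hxm
  have h4 : |(-1) ^ m * gbc e R - (1 - x / m) ^ m * roundGB m c| ≤
      err m (x / m) x * roundGB m c + (Real.exp (-x) - (1 - x / m) ^ m) * roundGB m c := by
    have e1 : (-1) ^ m * gbc e R - (1 - x / m) ^ m * roundGB m c =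
        ((-1) ^ m * gbc e R - Real.exp (-x) * roundGB m c) +
          (Real.exp (-x) - (1 - x / m) ^ m) * roundGB m c := by ring
    rw [e1]
    refine (abs_add_le _ _).trans (add_le_add h1.2 ?_)
    rw [abs_of_nonneg (mul_nonneg (by linarith) hrp.le)]
  refine h4.trans ?_
  have h5 := mul_le_mul_of_nonneg_right h2 hrp.le
  linarith

/-- **Einstein tensors, positive version** -/
theorem ein_pos (e : OrthonormalBasis (Fin m × Bool) ℝ V) {R : V → V → V → V → ℝ} {c κ : ℝ}
    (hR : AlgCurv R) (hc : 0 < c) (hκ : κ ≤ c)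
    (hm : 12 * (m * (1 - κ / c) + 1) * Real.exp (4 * (m * (1 - κ / c))) ≤ m)
    (hop : OpNonneg (addT (negT R) fun x y z w => c * unitT x y z w)) (hE : Einstein e R κ) :
    |gbc e R - roundGB m κ| ≤ rate m (m * (1 - κ / c)) * roundGB m κ := by
  have h1 := ein_neg e (neg_curv hR) hc hκ hm hop hE.neg
  rw [gbc_neg] at h1
  exact h1

end pointwise

end Pool.Agent.TH594.HA
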