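import Pool.Agent.TH594.HA.Pt

/-!
# Explicit forms
-/

set_option autoImplicit false

namespace Pool.Agent.TH594.HA

open Finset MeasureTheory Pool.Agent.TH594.HP Pool.Agent.TH594.HE Pool.Agent.TH594.HR
open Pool.Agent.W666.GB (AlgCurv gbc scal roundGB unitCurv CurvField)
open Pool.Agent.W669.HD (T4 gm cp negT addT unitT OpNonneg)

section

variable {m : ℕ} {V : Type} [NormedAddCommGroup V] [InnerProductSpace ℝ V]

/-- curvature operator `≥ -c`, `Ric ≤ -(1 - exp (-4 X) / 12) (n - 1) c`,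
`scal ≤ -(n - 1) (n - 2 X) c`, `n = 2 m` -/
def Pinched (X : ℝ) (e : OrthonormalBasis (Fin m × Bool) ℝ V) (R : V → V → V → V → ℝ)
    (c : ℝ) : Prop :=
  0 < c ∧ OpNonneg (addT R fun x y z w => c * unitT x y z w) ∧
    (∀ x : V, ric e R x ≤ -((2 * m - 1) * ((1 - Real.exp (-(4 * X)) / 12) * c)) * ‖x‖ ^ 2) ∧
    scal e R ≤ -(c * (2 * m - 1) * (2 * m - 2 * X))

theorem scal_ric (e : OrthonormalBasis (Fin m × Bool) ℝ V) (R : V → V → V → V → ℝ) :
    scal e R = ∑ j, ric e R (e j) := by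
  unfold scal ric
  exact Finset.sum_comm

theorem defN_le {X c : ℝ} (e : OrthonormalBasis (Fin m × Bool) ℝ V) {R : V → V → V → V → ℝ}
    (hm : 2 ≤ m) (hc : 0 < c) (h : scal e R ≤ -(c * (2 * m - 1) * (2 * m - 2 * X))) :
    defN e R c ≤ X := by
  have hmR : (2 : ℝ) ≤ m := by exact_mod_cast hm
  have hN : 0 < 2 * (m : ℝ) - 1 := by linarith
  unfold defN
  have h1 : scal e R / (2 * c * (2 * m - 1)) ≤ X - m := by
    rw [div_le_iff₀ (by positivity)]
    linarith
  linarith

/-- **the sign under the explicit pinching** -/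
theorem Pinched.sign {X : ℝ} {e : OrthonormalBasis (Fin m × Bool) ℝ V}
    {R : V → V → V → V → ℝ} {c : ℝ} (h : Pinched X e R c) (hR : AlgCurv R) (hX : 0 ≤ X)
    (hm : 12 * (X + 1) * Real.exp (4 * X) ≤ m) :
    1 / 4 * Real.exp (-X) * roundGB m c ≤ (-1) ^ m * gbc e R ∧
      (-1) ^ m * gbc e R ≤ 7 / 4 * roundGB m c := by
  obtain ⟨hc, hop, hric, hs⟩ := h
  have hy := defN_le e (two_le_of hX hm) hc hs
  have h1 := sign_neg' e hR hc hX (by positivity) le_rfl hm hop hric hy
  have h0 := (asym_neg e (two_le_of hX hm) hR hc (by positivity) (delta_le hX le_rfl) hop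
    hric).1
  have h3 := (Pool.Agent.W666.GB.roundGB_pos (m := m) hc)
  constructor
  · refine le_trans ?_ h1.1
    have : Real.exp (-X) ≤ Real.exp (-(defN e R c)) := Real.exp_le_exp.2 (by linarith)
    exact mul_le_mul_of_nonneg_right (by linarith) h3.le
  · refine h1.2.trans ?_
    have : Real.exp (-(defN e R c)) ≤ 1 := Real.exp_le_one_iff.2 (by linarith)
    exact mul_le_mul_of_nonneg_right (by linarith) h3.le

/-- a Ricci bound alone -/
theorem pinched_of_ric {X κ c : ℝ} (e : OrthonormalBasis (Fin m × Bool) ℝ V)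
    {R : V → V → V → V → ℝ} (hc : 0 < c) (hX : 0 ≤ X)
    (hm : 12 * (X + 1) * Real.exp (4 * X) ≤ m)
    (hop : OpNonneg (addT R fun x y z w => c * unitT x y z w))
    (hric : ∀ x : V, ric e R x ≤ -((2 * m - 1) * κ) * ‖x‖ ^ 2) (hκ : m * (1 - κ / c) ≤ X) :
    Pinched X e R c := by
  have hm2 := two_le_of hX hm
  have hmR : (2 : ℝ) ≤ m := by exact_mod_cast hm2
  have hm0 : (0 : ℝ) < m := by linarith
  have hN : 0 < 2 * (m : ℝ) - 1 := by linarith
  have e0 := Real.exp_pos (4 * X)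
  have h1 : 1 - κ / c ≤ Real.exp (-(4 * X)) / 12 := by
    have h2 : 1 - κ / c ≤ X / m := by
      rw [le_div_iff₀ hm0]; linarith
    refine h2.trans ?_
    rw [div_le_iff₀ hm0, Real.exp_neg]
    have h3 : 12 * X * Real.exp (4 * X) ≤ m := by nlinarith
    have h4 : X ≤ (Real.exp (4 * X))⁻¹ / 12 * (12 * X * Real.exp (4 * X)) := by
      field_simp
      exact le_rfl
    refine h4.trans (mul_le_mul_of_nonneg_left h3 (by positivity))
  have h5 : (1 - Real.exp (-(4 * X)) / 12) * c ≤ κ := by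
    have h6 : 1 - Real.exp (-(4 * X)) / 12 ≤ κ / c := by linarith
    rwa [le_div_iff₀ hc] at h6
  refine ⟨hc, hop, fun x => ?_, ?_⟩
  · refine (hric x).trans ?_
    refine mul_le_mul_of_nonneg_right ?_ (sq_nonneg _)
    have := mul_le_mul_of_nonneg_left h5 hN.le
    linarith
  · rw [scal_ric]
    have h7 : ∑ j, ric e R (e j) ≤ ∑ _j : Fin m × Bool, -((2 * m - 1) * κ) := by
      refine Finset.sum_le_sum fun j _ => ?_
      have := hric (e j)
      rw [e.norm_eq_one j] at this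
      linarith
    refine h7.trans ?_
    rw [Finset.sum_const, Finset.card_univ, nsmul_eq_mul, card_J]
    have h8 : c * (2 * m - 2 * X) ≤ 2 * m * κ := by
      have e1 : m * (1 - κ / c) * c = m * (c - κ) := by field_simp
      have := mul_le_mul_of_nonneg_right hκ hc.le
      rw [e1] at this
      linarith
    have h9 := mul_le_mul_of_nonneg_right h8 hN.le
    linarith

end

/-- the logarithmic range -/
theorem log_range {m : ℕ} (hm : 10 ^ 6 ≤ 2 * m) :
    0 ≤ Real.log (2 * m) / 6 ∧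
      12 * (Real.log (2 * m) / 6 + 1) * Real.exp (4 * (Real.log (2 * m) / 6)) ≤ m := by
  have hn : (10 : ℝ) ^ 6 ≤ 2 * m := by exact_mod_cast hm
  have hn0 : (0 : ℝ) < 2 * m := by linarith [pow_pos (by norm_num : (0 : ℝ) < 10) 6]
  have hl0 : 0 ≤ Real.log (2 * m) := Real.log_nonneg (by linarith [one_le_pow₀ (n := 6) (by norm_num : (1 : ℝ) ≤ 10)])
  refine ⟨by positivity, ?_⟩
  obtain ⟨s, hs⟩ : ∃ s : ℝ, s = Real.exp (Real.log (2 * m) / 3) := ⟨_, rfl⟩
  have hs0 : 0 < s := by rw [hs]; exact Real.exp_pos _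
  have hs3 : s ^ 3 = 2 * m := by
    rw [hs, ← Real.exp_nat_mul]
    push_cast
    rw [mul_div_cancel₀ _ (by norm_num : (3 : ℝ) ≠ 0), Real.exp_log hn0]
  have hs2 : Real.exp (4 * (Real.log (2 * m) / 6)) = s ^ 2 := by
    rw [hs, ← Real.exp_nat_mul]
    congr 1
    push_cast
    ring
  have hs100 : 100 ≤ s := by
    by_contra hc
    push Not at hc
    have : s ^ 3 < 100 ^ 3 := pow_lt_pow_left₀ hc hs0.le (by norm_num)
    rw [hs3] at this
    norm_num at this hn
    linarith
  have hls : Real.log (2 * m) = 3 * Real.log s := by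
    rw [hs, Real.log_exp]; ring
  have hl : Real.log s ≤ 3 + s / 50 := by
    have h1 : Real.log s = 4 + Real.log (s / Real.exp 4) := by
      rw [Real.log_div hs0.ne' (Real.exp_pos 4).ne', Real.log_exp]; ring
    have h2 : Real.log (s / Real.exp 4) ≤ s / Real.exp 4 - 1 :=
      Real.log_le_sub_one_of_pos (div_pos hs0 (Real.exp_pos 4))
    have h3 : (50 : ℝ) ≤ Real.exp 4 := by
      have g1 := Real.exp_one_gt_d9
      have g2 : Real.exp 4 = Real.exp 1 ^ 4 := by
        rw [← Real.exp_nat_mul]; norm_num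
      rw [g2]
      have g3 : (2.7 : ℝ) ^ 4 ≤ Real.exp 1 ^ 4 :=
        pow_le_pow_left₀ (by norm_num) (by linarith) 4
      norm_num at g3
      linarith
    have h4 : s / Real.exp 4 ≤ s / 50 := div_le_div_of_nonneg_left hs0.le (by norm_num) h3
    linarith
  rw [hs2, hls]
  have h5 : 24 * (3 * Real.log s / 6 + 1) ≤ s := by linarith
  have h6 := mul_le_mul_of_nonneg_right h5 (sq_nonneg s)
  have h7 : s * s ^ 2 = 2 * m := by rw [← hs3]; ring
  rw [h7] at h6
  linarith

end Pool.Agent.TH594.HA
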