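import Pool.Agent.TH594.HA.Fin

/-!
# Explicit forms, positive version
-/

set_option autoImplicit false

namespace Pool.Agent.TH594.HA

open Finset MeasureTheory Pool.Agent.TH594.HP Pool.Agent.TH594.HE Pool.Agent.TH594.HR
open Pool.Agent.W666.GB (AlgCurv gbc scal roundGB unitCurv CurvField)
open Pool.Agent.W669.HD (T4 gm cp negT addT unitT OpNonneg)

variable {m : ℕ} {V : Type} [NormedAddCommGroup V] [InnerProductSpace ℝ V]

/-- curvature operator `≤ c`, `Ric ≥ (1 - exp (-4 X) / 12) (n - 1) c`,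
`scal ≥ (n - 1) (n - 2 X) c`, `n = 2 m` -/
def PinchedPos (X : ℝ) (e : OrthonormalBasis (Fin m × Bool) ℝ V) (R : V → V → V → V → ℝ)
    (c : ℝ) : Prop :=
  0 < c ∧ OpNonneg (addT (negT R) fun x y z w => c * unitT x y z w) ∧
    (∀ x : V, (2 * m - 1) * ((1 - Real.exp (-(4 * X)) / 12) * c) * ‖x‖ ^ 2 ≤ ric e R x) ∧
    c * (2 * m - 1) * (2 * m - 2 * X) ≤ scal e R

theorem PinchedPos.neg {X : ℝ} {e : OrthonormalBasis (Fin m × Bool) ℝ V}
    {R : V → V → V → V → ℝ} {c : ℝ} (h : PinchedPos X e R c) : Pinched X e (negT R) c := by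
  obtain ⟨hc, hop, hric, hs⟩ := h
  refine ⟨hc, hop, fun x => ?_, ?_⟩
  · rw [ric_neg]
    have := hric x
    linarith
  · rw [scal_neg]
    linarith

/-- **the sign under the explicit pinching** -/
theorem PinchedPos.sign {X : ℝ} {e : OrthonormalBasis (Fin m × Bool) ℝ V}
    {R : V → V → V → V → ℝ} {c : ℝ} (h : PinchedPos X e R c) (hR : AlgCurv R) (hX : 0 ≤ X)
    (hm : 12 * (X + 1) * Real.exp (4 * X) ≤ m) :
    1 / 4 * Real.exp (-X) * roundGB m c ≤ gbc e R ∧ gbc e R ≤ 7 / 4 * roundGB m c := by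
  have h1 := h.neg.sign (neg_curv hR) hX hm
  rw [gbc_neg] at h1
  exact h1

/-- a Ricci bound alone -/
theorem pinchedPos_of_ric {X κ c : ℝ} (e : OrthonormalBasis (Fin m × Bool) ℝ V)
    {R : V → V → V → V → ℝ} (hc : 0 < c) (hX : 0 ≤ X)
    (hm : 12 * (X + 1) * Real.exp (4 * X) ≤ m)
    (hop : OpNonneg (addT (negT R) fun x y z w => c * unitT x y z w))
    (hric : ∀ x : V, (2 * m - 1) * κ * ‖x‖ ^ 2 ≤ ric e R x) (hκ : m * (1 - κ / c) ≤ X) :
    PinchedPos X e R c := by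
  have h := pinched_of_ric e hc hX hm hop (fun x => by
    rw [ric_neg]
    have := hric x
    linarith) hκ
  obtain ⟨_, _, h3, h4⟩ := h
  refine ⟨hc, hop, fun x => ?_, ?_⟩
  · have := h3 x
    rw [ric_neg] at this
    linarith
  · rw [scal_neg] at h4
    linarith

end Pool.Agent.TH594.HA
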