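import Pool.Agent.TH594.HA.Seq
import Pool.Agent.TH594.HR.Pt

/-!
# The Gauss-Bonnet-Chern integrand in high dimensions under a Ricci and a scalar curvature bound
-/

set_option autoImplicit false

namespace Pool.Agent.TH594.HA

open Finset MeasureTheory Pool.Agent.TH594.HP Pool.Agent.TH594.HE Pool.Agent.TH594.HR
open Pool.Agent.W666.GB (AlgCurv gbc scal roundGB unitCurv CurvField)
open Pool.Agent.W669.HD (T4 gm cp negT addT unitT OpNonneg BiForm gbc_eq cp_unit unit_bi unit_curv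
  add_curv)

section general

variable {J : Type*} [Fintype J] [DecidableEq J] {K : Type*} [Fintype K]

theorem Ls_ge_rho {ν : K → J → J → ℝ} (h : BiN ν) (hr : ∀ j l, j ≠ l → rc ν j l = 0) {ρ : ℝ}
    (hρ : ∀ j, rc ν j j ≤ ρ) {d : ℕ} {f : Fk J} (hf : Dg d f) :
    (2 * tt ν - 4 * (ρ * d)) * nn f ≤ Ls ν f := by
  have h1 := Ls_eq h.anti f
  have h2 := An_nonneg ν f
  rw [Rn_diag hr] at h1
  have h3 : ∑ j, rc ν j j * nn (an j f) ≤ ∑ j, ρ * nn (an j f) :=
    Finset.sum_le_sum fun j _ => mul_le_mul_of_nonneg_right (hρ j) (nn_nonneg _)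
  rw [← Finset.mul_sum, sum_nn_an hf] at h3
  linarith

theorem w_succ_ge {ν : K → J → J → ℝ} (h : BiN ν) (hr : ∀ j l, j ≠ l → rc ν j l = 0) {ρ : ℝ}
    (hρ : ∀ j, rc ν j j ≤ ρ) (j : ℕ) :
    (2 * tt ν - 8 * j * ρ) * w ν j ≤ w ν (j + 1) := by
  unfold w
  rw [pow_succ, Module.End.mul_apply]
  have h1 := O1_mono_dg ν j 0 ((2 * tt ν - 8 * j * ρ) • nn) (O1 ν nn) (fun f hf => by
      rw [O1_nn, Pi.smul_apply, smul_eq_mul]
      have := Ls_ge_rho h hr hρ hf
      push_cast at this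
      rw [zero_add] at this
      have e : 4 * (ρ * (2 * (j : ℝ))) = 8 * j * ρ := by ring
      rw [e] at this
      exact this) vac Dg_vac
  rw [map_smul, Pi.smul_apply, smul_eq_mul] at h1
  exact h1

theorem w_succ_le {ν : K → J → J → ℝ} (h : BiN ν) (j : ℕ) :
    w ν (j + 1) ≤ 2 * tt ν * w ν j := by
  unfold w
  rw [pow_succ, Module.End.mul_apply]
  have h1 := O1_mono_dg ν j 0 (O1 ν nn) ((2 * tt ν) • nn) (fun f _ => by
      rw [O1_nn, Pi.smul_apply, smul_eq_mul]
      exact Ls_le' h f) vac Dg_vac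
  rw [map_smul, Pi.smul_apply, smul_eq_mul] at h1
  exact h1

end general

section family

variable {m : ℕ} {K : Type*} [Fintype K] {ν : K → Matrix (Fin m × Bool) (Fin m × Bool) ℝ}
  {ρ : ℝ}

/-- the ratio conditions for the traces of a family -/
theorem rat_of (h : BiN (nu ν)) (hr : ∀ j l, j ≠ l → rc (nu ν) j l = 0)
    (hρ : ∀ j, rc (nu ν) j j ≤ ρ) (hρ0 : 0 ≤ ρ) {c δ X : ℝ} (hc : 0 < c) (hm : 2 ≤ m)
    (hδ : ρ / c ≤ δ * (2 * m - 1)) (hX : tt (nu ν) / (2 * c * (2 * m - 1)) ≤ X) :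
    Rat δ X m (fun j => TT (nu ν) c j / TT (nu ν) c 0) (tt (nu ν) / (2 * c * (2 * m - 1)))
      (ρ / c) := by
  have hmR : (2 : ℝ) ≤ m := by exact_mod_cast hm
  have hN : 0 < 2 * (m : ℝ) - 1 := by linarith
  have t00 : 0 < TT (nu ν) c 0 := by
    rw [TT_eq, w_zero, mul_one]; exact GG_pos hc (Nat.zero_le m)
  have key : ∀ j i : ℕ, j + (i + 1) = m → TT (nu ν) c (j + 1) * ((j + 1) * (2 * (i + 1) - 1)) *
      (4 * c) = GG m c j * w (nu ν) (j + 1) := by
    intro j i hi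
    rw [TT_eq, GG_succ c hi]; ring
  have ey : tt (nu ν) / (2 * c * (2 * m - 1)) * (2 * m - 1) * (4 * c) = 2 * tt (nu ν) := by
    field_simp
    ring
  refine ⟨?_, ?_, ?_, hX, by positivity, hδ, ?_, ?_, ?_⟩
  · intro j
    exact div_nonneg (TT_nonneg (nu ν) hc.le j) t00.le
  · exact div_self t00.ne'
  · have := tt_nonneg (nu ν)
    positivity
  · intro j i hi
    have h1 : TT (nu ν) c (j + 1) * ((j + 1) * (2 * (i + 1) - 1)) * (4 * c) ≤
        tt (nu ν) / (2 * c * (2 * m - 1)) * (2 * m - 1) * TT (nu ν) c j * (4 * c) := by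
      rw [key j i hi]
      have e : tt (nu ν) / (2 * c * (2 * m - 1)) * (2 * m - 1) * TT (nu ν) c j * (4 * c) =
          GG m c j * (2 * tt (nu ν) * w (nu ν) j) := by
        rw [TT_eq, ← mul_assoc (GG m c j), ← ey]; ring
      rw [e]
      exact mul_le_mul_of_nonneg_left (w_succ_le h j) (GG_pos hc (by omega)).le
    have h2 := le_of_mul_le_mul_right h1 (by linarith)
    rw [div_mul_eq_mul_div, ← mul_div_assoc]
    exact div_le_div_of_nonneg_right h2 t00.le
  · intro j i hi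
    have h1 := TT_le' h hr hρ hc hi
    have h2 : TT (nu ν) c (j + 1) * ((j + 1) * (2 * (i + 1) - 1)) * c ≤
        ρ / c * (i + 1) * TT (nu ν) c j * c := by
      have e : ρ / c * (i + 1) * TT (nu ν) c j * c = ρ * (i + 1) * TT (nu ν) c j := by
        field_simp
      rw [e]
      linarith
    have h3 := le_of_mul_le_mul_right h2 hc
    rw [div_mul_eq_mul_div, ← mul_div_assoc]
    exact div_le_div_of_nonneg_right h3 t00.le
  · intro j i hi
    have h1 : (tt (nu ν) / (2 * c * (2 * m - 1)) * (2 * m - 1) - 2 * j * (ρ / c)) *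
        TT (nu ν) c j * (4 * c) ≤
        TT (nu ν) c (j + 1) * ((j + 1) * (2 * (i + 1) - 1)) * (4 * c) := by
      rw [key j i hi]
      have e : (tt (nu ν) / (2 * c * (2 * m - 1)) * (2 * m - 1) - 2 * j * (ρ / c)) *
          TT (nu ν) c j * (4 * c) = GG m c j * ((2 * tt (nu ν) - 8 * j * ρ) * w (nu ν) j) := by
        rw [TT_eq]
        have e2 : 2 * (j : ℝ) * (ρ / c) * (4 * c) = 8 * j * ρ := by
          field_simp
          ring
        calc (tt (nu ν) / (2 * c * (2 * m - 1)) * (2 * m - 1) - 2 * j * (ρ / c)) *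
              (GG m c j * w (nu ν) j) * (4 * c) =
              (tt (nu ν) / (2 * c * (2 * m - 1)) * (2 * m - 1) * (4 * c) -
                2 * (j : ℝ) * (ρ / c) * (4 * c)) * (GG m c j * w (nu ν) j) := by ring
          _ = _ := by rw [ey, e2]; ring
      rw [e]
      exact mul_le_mul_of_nonneg_left (w_succ_ge h hr hρ j) (GG_pos hc (by omega)).le
    have h2 := le_of_mul_le_mul_right h1 (by linarith)
    have h3 := div_le_div_of_nonneg_right h2 t00.le
    have e3 : (tt (nu ν) / (2 * c * (2 * m - 1)) * (2 * m - 1) - 2 * j * (ρ / c)) *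
        (TT (nu ν) c j / TT (nu ν) c 0) = (tt (nu ν) / (2 * c * (2 * m - 1)) * (2 * m - 1) -
          2 * j * (ρ / c)) * TT (nu ν) c j / TT (nu ν) c 0 := by ring
    have e4 : TT (nu ν) c (j + 1) / TT (nu ν) c 0 * ((j + 1) * (2 * ((i : ℝ) + 1) - 1)) =
        TT (nu ν) c (j + 1) * ((j + 1) * (2 * (i + 1) - 1)) / TT (nu ν) c 0 := by ring
    rw [e3, e4]
    exact h3

theorem F_div (T : ℕ → ℝ) (m : ℕ) (s : ℝ) (hs : s ≠ 0) :
    F T m 0 = s * F (fun j => T j / s) m 0 := by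
  unfold F
  rw [Finset.mul_sum]
  refine Finset.sum_congr rfl fun j _ => ?_
  field_simp

end family

/-- the normalised defect of the scalar curvature (negative version) -/
noncomputable def defN {m : ℕ} {V : Type} [NormedAddCommGroup V] [InnerProductSpace ℝ V]
    (e : OrthonormalBasis (Fin m × Bool) ℝ V) (R : V → V → V → V → ℝ) (c : ℝ) : ℝ :=
  m + scal e R / (2 * c * (2 * m - 1))

/-- the normalised defect of the scalar curvature (positive version) -/
noncomputable def defP {m : ℕ} {V : Type} [NormedAddCommGroup V] [InnerProductSpace ℝ V]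
    (e : OrthonormalBasis (Fin m × Bool) ℝ V) (R : V → V → V → V → ℝ) (c : ℝ) : ℝ :=
  m - scal e R / (2 * c * (2 * m - 1))

/-- the error term -/
noncomputable def err (m : ℕ) (δ y : ℝ) : ℝ :=
  3 * Real.exp (3 * y) * (δ + y / (m - 1)) + Real.exp (6 * y) * (1 / 2) ^ (m / 2)

/-- **the pointwise theorem, negative version** -/
theorem asym_neg {m : ℕ} {V : Type} [NormedAddCommGroup V] [InnerProductSpace ℝ V]
    (e : OrthonormalBasis (Fin m × Bool) ℝ V) {R : V → V → V → V → ℝ} {c δ : ℝ}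
    (hm : 2 ≤ m) (hR : AlgCurv R) (hc : 0 < c) (hδ0 : 0 ≤ δ) (hδ : δ ≤ 1 / 8)
    (hop : OpNonneg (addT R fun x y z w => c * unitT x y z w))
    (hric : ∀ x : V, ric e R x ≤ -((2 * m - 1) * ((1 - δ) * c)) * ‖x‖ ^ 2) :
    0 ≤ defN e R c ∧
      |(-1) ^ m * gbc e R - Real.exp (-(defN e R c)) * roundGB m c| ≤
        err m δ (defN e R c) * roundGB m c := by
  have hmR : (2 : ℝ) ≤ m := by exact_mod_cast hm
  have hN : 0 < 2 * (m : ℝ) - 1 := by linarith
  obtain ⟨n, ν, hν, hr, hρ, ht, hg⟩ := reduceR e hR hop hric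
  have hρ0 : 0 ≤ (2 * (m : ℝ) - 1) * (c - (1 - δ) * c) := by
    have : c - (1 - δ) * c = δ * c := by ring
    rw [this]; positivity
  have e1 : (2 * (m : ℝ) - 1) * (c - (1 - δ) * c) / c = δ * (2 * m - 1) := by
    field_simp
    ring
  have e2 : tt (nu ν) / (2 * c * (2 * m - 1)) = defN e R c := by
    unfold defN
    rw [ht, add_div, add_comm]
    congr 1
    field_simp
  have hrat := rat_of hν hr hρ hρ0 hc hm (δ := δ) (X := defN e R c) e1.le (by rw [e2])
  rw [e2] at hrat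
  have h1 := hrat.main hδ hm
  have t00 : 0 < TT (nu ν) c 0 := by
    rw [TT_eq, w_zero, mul_one]; exact GG_pos hc (Nat.zero_le m)
  have hπ := Real.pi_pos
  have hC : 0 < 1 / ((8 * Real.pi) ^ m * (m.factorial : ℝ)) := by positivity
  have hround : roundGB m c = 1 / ((8 * Real.pi) ^ m * m.factorial) * TT (nu ν) c 0 := by
    rw [TT_zero]
    unfold roundGB
    have : (8 * Real.pi) ^ m = 2 ^ m * (4 * Real.pi) ^ m := by
      rw [← mul_pow]; congr 1; ring
    rw [this, mul_pow 2 c m]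
    field_simp
  refine ⟨hrat.y0, ?_⟩
  rw [hg, gm_F _ hc.le, F_div _ m _ t00.ne', hround]
  have e3 : 1 / ((8 * Real.pi) ^ m * (m.factorial : ℝ)) *
      (TT (nu ν) c 0 * F (fun j => TT (nu ν) c j / TT (nu ν) c 0) m 0) -
      Real.exp (-(defN e R c)) * (1 / ((8 * Real.pi) ^ m * m.factorial) * TT (nu ν) c 0) =
      (F (fun j => TT (nu ν) c j / TT (nu ν) c 0) m 0 - Real.exp (-(defN e R c))) *
        (1 / ((8 * Real.pi) ^ m * (m.factorial : ℝ)) * TT (nu ν) c 0) := by ring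
  have hCT := mul_pos hC t00
  rw [e3, abs_mul, abs_of_pos hCT]
  exact mul_le_mul_of_nonneg_right h1 hCT.le

/-- **the pointwise theorem, positive version** -/
theorem asym_pos {m : ℕ} {V : Type} [NormedAddCommGroup V] [InnerProductSpace ℝ V]
    (e : OrthonormalBasis (Fin m × Bool) ℝ V) {R : V → V → V → V → ℝ} {c δ : ℝ}
    (hm : 2 ≤ m) (hR : AlgCurv R) (hc : 0 < c) (hδ0 : 0 ≤ δ) (hδ : δ ≤ 1 / 8)
    (hop : OpNonneg (addT (negT R) fun x y z w => c * unitT x y z w))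
    (hric : ∀ x : V, (2 * m - 1) * ((1 - δ) * c) * ‖x‖ ^ 2 ≤ ric e R x) :
    0 ≤ defP e R c ∧
      |gbc e R - Real.exp (-(defP e R c)) * roundGB m c| ≤
        err m δ (defP e R c) * roundGB m c := by
  have e1 : defN e (negT R) c = defP e R c := by
    unfold defN defP
    rw [scal_neg]; ring
  have h1 := asym_neg e hm (neg_curv hR) hc hδ0 hδ hop (fun x => by
    rw [ric_neg]
    have := hric x
    linarith)
  rw [e1, gbc_neg] at h1
  exact h1

theorem err_le {m : ℕ} {δ X y : ℝ} (hy : 0 ≤ y) (hyX : y ≤ X)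
    (hδ : δ ≤ Real.exp (-(4 * X)) / 12) (hm : 12 * (X + 1) * Real.exp (4 * X) ≤ m) :
    err m δ y ≤ 3 / 4 * Real.exp (-y) := by
  refine expl hy (hδ.trans ?_) (le_trans ?_ hm)
  · refine div_le_div_of_nonneg_right (Real.exp_le_exp.2 (by linarith)) (by norm_num)
  · refine mul_le_mul (by linarith) (Real.exp_le_exp.2 (by linarith)) (Real.exp_pos _).le
      (by linarith)

theorem two_le_of {m : ℕ} {X : ℝ} (hX : 0 ≤ X) (hm : 12 * (X + 1) * Real.exp (4 * X) ≤ m) :
    2 ≤ m := by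
  have e1 : 1 ≤ Real.exp (4 * X) := Real.one_le_exp (by linarith)
  have : (2 : ℝ) ≤ m := by nlinarith
  exact_mod_cast this

theorem delta_le {δ X : ℝ} (hX : 0 ≤ X) (hδ : δ ≤ Real.exp (-(4 * X)) / 12) : δ ≤ 1 / 8 := by
  have : Real.exp (-(4 * X)) ≤ 1 := Real.exp_le_one_iff.2 (by linarith)
  linarith

/-- **the sign with explicit constants, negative version** -/
theorem sign_neg' {m : ℕ} {V : Type} [NormedAddCommGroup V] [InnerProductSpace ℝ V]
    (e : OrthonormalBasis (Fin m × Bool) ℝ V) {R : V → V → V → V → ℝ} {c δ X : ℝ}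
    (hR : AlgCurv R) (hc : 0 < c) (hX : 0 ≤ X) (hδ0 : 0 ≤ δ)
    (hδ : δ ≤ Real.exp (-(4 * X)) / 12) (hm : 12 * (X + 1) * Real.exp (4 * X) ≤ m)
    (hop : OpNonneg (addT R fun x y z w => c * unitT x y z w))
    (hric : ∀ x : V, ric e R x ≤ -((2 * m - 1) * ((1 - δ) * c)) * ‖x‖ ^ 2)
    (hy : defN e R c ≤ X) :
    1 / 4 * Real.exp (-(defN e R c)) * roundGB m c ≤ (-1) ^ m * gbc e R ∧
      (-1) ^ m * gbc e R ≤ 7 / 4 * Real.exp (-(defN e R c)) * roundGB m c := by
  obtain ⟨h0, h1⟩ := asym_neg e (two_le_of hX hm) hR hc hδ0 (delta_le hX hδ) hop hric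
  have h2 := err_le h0 hy hδ hm
  have h3 := (Pool.Agent.W666.GB.roundGB_pos (m := m) hc)
  have h4 := mul_le_mul_of_nonneg_right h2 h3.le
  have h5 := abs_le.1 (h1.trans h4)
  constructor
  · linarith [h5.1]
  · linarith [h5.2]

/-- **the sign with explicit constants, positive version** -/
theorem sign_pos' {m : ℕ} {V : Type} [NormedAddCommGroup V] [InnerProductSpace ℝ V]
    (e : OrthonormalBasis (Fin m × Bool) ℝ V) {R : V → V → V → V → ℝ} {c δ X : ℝ}
    (hR : AlgCurv R) (hc : 0 < c) (hX : 0 ≤ X) (hδ0 : 0 ≤ δ)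
    (hδ : δ ≤ Real.exp (-(4 * X)) / 12) (hm : 12 * (X + 1) * Real.exp (4 * X) ≤ m)
    (hop : OpNonneg (addT (negT R) fun x y z w => c * unitT x y z w))
    (hric : ∀ x : V, (2 * m - 1) * ((1 - δ) * c) * ‖x‖ ^ 2 ≤ ric e R x)
    (hy : defP e R c ≤ X) :
    1 / 4 * Real.exp (-(defP e R c)) * roundGB m c ≤ gbc e R ∧
      gbc e R ≤ 7 / 4 * Real.exp (-(defP e R c)) * roundGB m c := by
  obtain ⟨h0, h1⟩ := asym_pos e (two_le_of hX hm) hR hc hδ0 (delta_le hX hδ) hop hric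
  have h2 := err_le h0 hy hδ hm
  have h3 := (Pool.Agent.W666.GB.roundGB_pos (m := m) hc)
  have h4 := mul_le_mul_of_nonneg_right h2 h3.le
  have h5 := abs_le.1 (h1.trans h4)
  constructor
  · linarith [h5.1]
  · linarith [h5.2]

end Pool.Agent.TH594.HA
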