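import Pool.Agent.TH594.HP.Alt

/-!
# Alternating sums whose ratios are asymptotic to those of the exponential series
-/

set_option autoImplicit false

namespace Pool.Agent.TH594.HA

open Finset Filter Topology Pool.Agent.TH594.HP

/-- the ratio conditions -/
structure Rat (δ X : ℝ) (m : ℕ) (a : ℕ → ℝ) (y r : ℝ) : Prop where
  nonneg : ∀ j, 0 ≤ a j
  zero : a 0 = 1
  y0 : 0 ≤ y
  yX : y ≤ X
  r0 : 0 ≤ r
  rd : r ≤ δ * (2 * m - 1)
  up : ∀ j i : ℕ, j + (i + 1) = m → a (j + 1) * ((j + 1) * (2 * (i + 1) - 1)) ≤ y * (2 * m - 1) * a j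
  ric : ∀ j i : ℕ, j + (i + 1) = m → a (j + 1) * ((j + 1) * (2 * (i + 1) - 1)) ≤ r * (i + 1) * a j
  low : ∀ j i : ℕ, j + (i + 1) = m →
    (y * (2 * m - 1) - 2 * j * r) * a j ≤ a (j + 1) * ((j + 1) * (2 * (i + 1) - 1))

variable {δ X : ℝ} {m : ℕ} {a : ℕ → ℝ} {y r : ℝ}

/-- first half -/
theorem Rat.half (h : Rat δ X m a y r) (hm : 2 ≤ m) : ∀ j : ℕ, 2 * j ≤ m + 2 → j ≤ m →
    a j ≤ (3 * X) ^ j / j.factorial := by
  intro j
  have hmR : (2 : ℝ) ≤ m := by exact_mod_cast hm
  have hX : 0 ≤ X := h.y0.trans h.yX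
  induction j with
  | zero =>
    intro _ _
    simp [h.zero]
  | succ j ih =>
    intro h1 h2
    obtain ⟨i, hi⟩ : ∃ i, j + (i + 1) = m := ⟨m - j - 1, by omega⟩
    have h3 := h.up j i hi
    have h4 := ih (by omega) (by omega)
    have hiR : (j : ℝ) + (i + 1) = m := by exact_mod_cast hi
    have hj : (2 : ℝ) * j ≤ m := by
      have : 2 * j ≤ m := by omega
      exact_mod_cast this
    have hj0 : (0 : ℝ) ≤ j := Nat.cast_nonneg j
    have ha := h.nonneg j
    have ha1 := h.nonneg (j + 1)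
    have h5 : (2 * (m : ℝ) - 1) ≤ 3 * (2 * (i + 1) - 1) := by nlinarith
    have hN : 0 < 2 * (m : ℝ) - 1 := by linarith
    -- a (j+1) (j+1) N ≤ 3 a (j+1) (j+1) (2(i+1)-1) ≤ 3 y N a j
    have h6 : a (j + 1) * (j + 1) * (2 * m - 1) ≤ 3 * X * a j * (2 * m - 1) := by
      have e1 : a (j + 1) * (j + 1) * (2 * m - 1) ≤ a (j + 1) * (j + 1) * (3 * (2 * (i + 1) - 1)) :=
        mul_le_mul_of_nonneg_left h5 (by positivity)
      have e2 : y * (2 * m - 1) * a j ≤ X * (2 * m - 1) * a j :=
        mul_le_mul_of_nonneg_right (mul_le_mul_of_nonneg_right h.yX hN.le) ha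
      nlinarith
    have h7 : a (j + 1) * (j + 1) ≤ 3 * X * a j := le_of_mul_le_mul_right h6 hN
    have hf : (0 : ℝ) < (j.factorial : ℝ) := by positivity
    rw [Nat.factorial_succ, pow_succ, le_div_iff₀ (by positivity)]
    rw [le_div_iff₀ hf] at h4
    push_cast
    calc a (j + 1) * ((j + 1) * j.factorial) = (a (j + 1) * (j + 1)) * j.factorial := by ring
      _ ≤ (3 * X * a j) * j.factorial := mul_le_mul_of_nonneg_right h7 hf.le
      _ = 3 * X * (a j * j.factorial) := by ring
      _ ≤ 3 * X * (3 * X) ^ j := mul_le_mul_of_nonneg_left h4 (by positivity)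
      _ = (3 * X) ^ j * (3 * X) := by ring

theorem pow_fact_le {z : ℝ} (hz : 0 ≤ z) (j : ℕ) : z ^ j / j.factorial ≤ Real.exp z := by
  have h := Real.sum_le_exp_of_nonneg hz (j + 1)
  refine le_trans ?_ h
  exact Finset.single_le_sum (f := fun i : ℕ => z ^ i / (i.factorial : ℝ))
    (fun i _ => by positivity) (Finset.mem_range.2 (Nat.lt_succ_self j))

theorem Rat.bd0 (h : Rat δ X m a y r) (hm : 2 ≤ m) {j : ℕ} (h1 : 2 * j ≤ m + 2) (h2 : j ≤ m) :
    a j ≤ Real.exp (6 * X) * (1 / 2) ^ j := by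
  have hX : 0 ≤ X := h.y0.trans h.yX
  refine (h.half hm j h1 h2).trans ?_
  have h3 := pow_fact_le (by linarith : 0 ≤ 6 * X) j
  have e : (3 * X) ^ j / (j.factorial : ℝ) = (6 * X) ^ j / j.factorial * (1 / 2) ^ j := by
    rw [show (3 * X) = (6 * X) * (1 / 2) by ring, mul_pow]; ring
  rw [e]
  exact mul_le_mul_of_nonneg_right h3 (by positivity)

/-- **geometric bound** -/
theorem Rat.bd (h : Rat δ X m a y r) (hδ : δ ≤ 1 / 8) (hm : 2 ≤ m) :
    ∀ j : ℕ, j ≤ m → a j ≤ Real.exp (6 * X) * (1 / 2) ^ j := by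
  intro j
  have hmR : (2 : ℝ) ≤ m := by exact_mod_cast hm
  induction j with
  | zero => intro h0; exact h.bd0 hm (by omega) h0
  | succ j ih =>
    intro h2
    rcases Nat.lt_or_ge (m + 2) (2 * (j + 1)) with h1 | h1
    · obtain ⟨i, hi⟩ : ∃ i, j + (i + 1) = m := ⟨m - j - 1, by omega⟩
      have h3 := h.ric j i hi
      have h4 := ih (by omega)
      have hj : (m : ℝ) ≤ 2 * j := by
        have : m ≤ 2 * j := by omega
        exact_mod_cast this
      have hi0 : (0 : ℝ) ≤ i := Nat.cast_nonneg i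
      have ha := h.nonneg j
      have ha1 := h.nonneg (j + 1)
      have hr := h.rd
      have hr0 := h.r0
      have hN : 0 < 2 * (m : ℝ) - 1 := by linarith
      have h5 : a (j + 1) * (j + 1) * (2 * (i + 1) - 1) ≤ r * a j * (2 * (i + 1) - 1) := by
        have e : r * (i + 1) * a j ≤ r * a j * (2 * (i + 1) - 1) := by
          have : r * a j * (i + 1) ≤ r * a j * (2 * (i + 1) - 1) :=
            mul_le_mul_of_nonneg_left (by linarith) (by positivity)
          linarith
        linarith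
      have h6 : a (j + 1) * (j + 1) ≤ r * a j :=
        le_of_mul_le_mul_right h5 (by linarith)
      have h7 : r ≤ 1 / 8 * (4 * (j + 1)) := by
        have e1 : δ * (2 * m - 1) ≤ 1 / 8 * (2 * m - 1) :=
          mul_le_mul_of_nonneg_right hδ hN.le
        linarith
      have h8 : a (j + 1) * (j + 1) ≤ (1 / 2 * a j) * (j + 1) := by
        have : r * a j ≤ 1 / 8 * (4 * (j + 1)) * a j := mul_le_mul_of_nonneg_right h7 ha
        linarith
      have h9 : a (j + 1) ≤ 1 / 2 * a j := le_of_mul_le_mul_right h8 (by positivity)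
      calc a (j + 1) ≤ 1 / 2 * a j := h9
        _ ≤ 1 / 2 * (Real.exp (6 * X) * (1 / 2) ^ j) := by linarith
        _ = Real.exp (6 * X) * (1 / 2) ^ (j + 1) := by rw [pow_succ]; ring
    · exact h.bd0 hm h1 h2

/-- **one step** -/
theorem Rat.step (h : Rat δ X m a y r) (hm : 2 ≤ m) {j : ℕ} (hj : 2 * j ≤ m) :
    (j + 1) * |a (j + 1) - y / (j + 1) * a j| ≤ a j * (j * (2 * (δ + X / (m - 1)))) := by
  obtain ⟨i, hi⟩ : ∃ i, j + (i + 1) = m := ⟨m - j - 1, by omega⟩
  have hmR : (2 : ℝ) ≤ m := by exact_mod_cast hm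
  have hiR : (j : ℝ) + (i + 1) = m := by exact_mod_cast hi
  have hX : 0 ≤ X := h.y0.trans h.yX
  have hj0 : (0 : ℝ) ≤ j := Nat.cast_nonneg j
  have hjm : (2 : ℝ) * j ≤ m := by exact_mod_cast hj
  have ha := h.nonneg j
  have ha1 := h.nonneg (j + 1)
  have hN : 0 < 2 * (m : ℝ) - 1 := by linarith
  have hN' : 0 < (m : ℝ) - 1 := by linarith
  have hK : 0 < 2 * ((i : ℝ) + 1) - 1 := by nlinarith
  have hK' : (m : ℝ) - 1 ≤ 2 * ((i : ℝ) + 1) - 1 := by linarith
  have hKN : 2 * ((i : ℝ) + 1) - 1 = 2 * m - 1 - 2 * j := by linarith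
  have h1 := h.up j i hi
  have h2 := h.low j i hi
  have hr := h.rd
  have hr0 := h.r0
  have hy0 := h.y0
  have hyX := h.yX
  have hδ0 : 0 ≤ δ := by
    by_contra hc
    push Not at hc
    nlinarith
  set K := 2 * ((i : ℝ) + 1) - 1 with hKdef
  have e00 : (j + 1) * |a (j + 1) - y / (j + 1) * a j| =
      |(j + 1) * (a (j + 1) - y / (j + 1) * a j)| := by
    rw [abs_mul, abs_of_pos (by positivity : (0 : ℝ) < j + 1)]
  have e0 : (j + 1) * (a (j + 1) - y / (j + 1) * a j) = a (j + 1) * (j + 1) - y * a j := by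
    field_simp
  have e01 : a j * (j * (2 * (δ + X / (m - 1)))) =
      a j * (2 * j * δ + X * (2 * j) / (m - 1)) := by ring
  rw [e00, e0, e01, abs_le]
  constructor
  · -- lower
    have e1 : (y - 2 * j * δ) * a j ≤ a (j + 1) * (j + 1) := by
      rcases le_or_gt (y - 2 * j * δ) 0 with hc | hc
      · have : (y - 2 * j * δ) * a j ≤ 0 := mul_nonpos_of_nonpos_of_nonneg hc ha
        have : 0 ≤ a (j + 1) * (j + 1) := by positivity
        linarith
      · have e2 : (y - 2 * j * δ) * (2 * m - 1) ≤ y * (2 * m - 1) - 2 * j * r := by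
          have : 2 * j * r ≤ 2 * j * (δ * (2 * m - 1)) :=
            mul_le_mul_of_nonneg_left hr (by linarith)
          linarith
        have e3 : (y - 2 * j * δ) * K ≤ (y - 2 * j * δ) * (2 * m - 1) :=
          mul_le_mul_of_nonneg_left (by rw [hKN]; linarith) hc.le
        have e4 : (y - 2 * j * δ) * K * a j ≤ (y * (2 * m - 1) - 2 * j * r) * a j :=
          mul_le_mul_of_nonneg_right (e3.trans e2) ha
        have e5 : (y - 2 * j * δ) * a j * K ≤ a (j + 1) * (j + 1) * K := by linarith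
        exact le_of_mul_le_mul_right e5 hK
    have e6 : 0 ≤ a j * (X * (2 * j) / (m - 1)) := by positivity
    linarith
  · -- upper
    have e1 : a (j + 1) * (j + 1) ≤ (y + X * (2 * j) / (m - 1)) * a j := by
      have e2 : y * (2 * m - 1) ≤ (y + X * (2 * j) / (m - 1)) * K := by
        have e3 : X * (2 * j) ≤ X * (2 * j) / (m - 1) * K := by
          rw [div_mul_eq_mul_div, le_div_iff₀ hN']
          exact mul_le_mul_of_nonneg_left hK' (by positivity)
        have e4 : y * (2 * j) ≤ X * (2 * j) := mul_le_mul_of_nonneg_right hyX (by linarith)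
        have e5 : y * (2 * m - 1) = y * K + y * (2 * j) := by rw [hKN]; ring
        rw [e5, add_mul]
        linarith
      have e6 : y * (2 * m - 1) * a j ≤ (y + X * (2 * j) / (m - 1)) * K * a j :=
        mul_le_mul_of_nonneg_right e2 ha
      have e7 : a (j + 1) * (j + 1) * K ≤ (y + X * (2 * j) / (m - 1)) * a j * K := by linarith
      exact le_of_mul_le_mul_right e7 hK
    have e6 : 0 ≤ a j * (2 * j * δ) := by positivity
    linarith

theorem Rat.delta_nonneg (h : Rat δ X m a y r) (hm : 2 ≤ m) : 0 ≤ δ := by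
  have hmR : (2 : ℝ) ≤ m := by exact_mod_cast hm
  have hr := h.rd
  have hr0 := h.r0
  by_contra hc
  push Not at hc
  nlinarith

/-- **termwise distance to the exponential series** -/
theorem Rat.term (h : Rat δ X m a y r) (hm : 2 ≤ m) : ∀ j : ℕ, 2 * j ≤ m →
    |a (j + 1) - y ^ (j + 1) / (j + 1).factorial| ≤
      3 * (δ + X / (m - 1)) * ((3 * X) ^ j / j.factorial) := by
  have hmR : (2 : ℝ) ≤ m := by exact_mod_cast hm
  have hX : 0 ≤ X := h.y0.trans h.yX
  have hδ := h.delta_nonneg hm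
  have hη : 0 ≤ δ + X / (m - 1) := by
    have : 0 ≤ X / ((m : ℝ) - 1) := div_nonneg hX (by linarith)
    linarith
  intro j
  induction j with
  | zero =>
    intro h0
    have h1 := h.step hm (j := 0) (by omega)
    simp only [Nat.cast_zero, zero_add, one_mul, zero_mul, mul_zero, div_one, h.zero, mul_one] at h1
    simp only [zero_add, pow_one, Nat.factorial_one, Nat.cast_one, div_one, pow_zero,
      Nat.factorial_zero, mul_one]
    linarith
  | succ j ih =>
    intro h0
    have h1 := h.step hm (j := j + 1) h0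
    have h2 := ih (by omega)
    have h3 := h.half hm (j + 1) (by omega) (by omega)
    have hj0 : (0 : ℝ) ≤ j := Nat.cast_nonneg j
    have hy0 := h.y0
    have hyX := h.yX
    have hf : (0 : ℝ) < (j.factorial : ℝ) := by positivity
    push_cast at h1
    set η := δ + X / ((m : ℝ) - 1) with hηd
    set Z := (3 * X) ^ j / (j.factorial : ℝ) with hZ
    have hZ0 : 0 ≤ Z := by positivity
    have eZ : (3 * X) ^ (j + 1) / ((j + 1).factorial : ℝ) = Z * (3 * X) / (j + 1) := by
      rw [hZ, Nat.factorial_succ, pow_succ]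
      push_cast
      field_simp
    rw [eZ] at h3 ⊢
    have e1 : y ^ (j + 1 + 1) / ((j + 1 + 1).factorial : ℝ) =
        y / (j + 1 + 1) * (y ^ (j + 1) / ((j + 1).factorial : ℝ)) := by
      rw [Nat.factorial_succ (j + 1), pow_succ y (j + 1)]
      push_cast
      have : ((j + 1).factorial : ℝ) ≠ 0 := by positivity
      field_simp
    have e2 : a (j + 1 + 1) - y ^ (j + 1 + 1) / ((j + 1 + 1).factorial : ℝ) =
        (a (j + 1 + 1) - y / (j + 1 + 1) * a (j + 1)) +
          y / (j + 1 + 1) * (a (j + 1) - y ^ (j + 1) / ((j + 1).factorial : ℝ)) := by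
      rw [e1]; ring
    rw [e2]
    refine (abs_add_le _ _).trans ?_
    rw [abs_mul, abs_of_nonneg (by positivity : 0 ≤ y / ((j : ℝ) + 1 + 1))]
    have e3 : |a (j + 1 + 1) - y / (j + 1 + 1) * a (j + 1)| ≤
        Z * (3 * X) / (j + 1) * ((j + 1) * (2 * η)) / (j + 1 + 1) := by
      rw [le_div_iff₀ (by positivity), mul_comm]
      refine h1.trans ?_
      exact mul_le_mul_of_nonneg_right h3 (by positivity)
    have e4 : y / ((j : ℝ) + 1 + 1) * |a (j + 1) - y ^ (j + 1) / ((j + 1).factorial : ℝ)| ≤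
        X / (j + 1 + 1) * (3 * η * Z) := by
      refine mul_le_mul ?_ h2 (abs_nonneg _) (by positivity)
      exact div_le_div_of_nonneg_right hyX (by positivity)
    refine (add_le_add e3 e4).trans ?_
    have e5 : Z * (3 * X) / (j + 1) * ((j + 1) * (2 * η)) / (j + 1 + 1) +
        X / (j + 1 + 1) * (3 * η * Z) = 9 * X * η * Z / (j + 1 + 1) := by
      field_simp
      ring
    have e6 : 3 * η * (Z * (3 * X) / (j + 1)) = 9 * X * η * Z / (j + 1) := by ring
    rw [e5, e6]
    exact div_le_div_of_nonneg_left (by positivity) (by positivity) (by linarith)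

/-- **the alternating sum is close to the exponential, with explicit error** -/
theorem Rat.main (h : Rat δ X m a y r) (hδ8 : δ ≤ 1 / 8) (hm : 2 ≤ m) :
    |F a m 0 - Real.exp (-y)| ≤
      3 * Real.exp (3 * X) * (δ + X / (m - 1)) + Real.exp (6 * X) * (1 / 2) ^ (m / 2) := by
  have hmR : (2 : ℝ) ≤ m := by exact_mod_cast hm
  have hX : 0 ≤ X := h.y0.trans h.yX
  have hy0 := h.y0
  have hδ := h.delta_nonneg hm
  have hη : 0 ≤ δ + X / (m - 1) := by
    have : 0 ≤ X / ((m : ℝ) - 1) := div_nonneg hX (by linarith)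
    linarith
  set J := m / 2 + 1 with hJ
  have hJm : J ≤ m := by omega
  set B : ℕ → ℝ := fun j => if j ≤ m then a j else 0 with hB
  set f : ℕ → ℝ := fun j => (-1 : ℝ) ^ j * (B j - y ^ j / j.factorial) with hf
  have s1 : HasSum (fun j : ℕ => (-1 : ℝ) ^ j * B j) (F a m 0) := by
    have h1 : F a m 0 = ∑ j ∈ range (m + 1), (-1 : ℝ) ^ j * B j := by
      unfold F
      refine Finset.sum_congr rfl fun j hj => ?_
      simp only [hB]
      rw [if_pos (by have := Finset.mem_range.1 hj; omega), zero_add]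
    rw [h1]
    refine hasSum_sum_of_ne_finset_zero fun j hj => ?_
    simp only [hB]
    rw [if_neg (by simpa using hj), mul_zero]
  have s2 : HasSum (fun j : ℕ => (-1 : ℝ) ^ j * (y ^ j / j.factorial)) (Real.exp (-y)) := by
    have h2 := NormedSpace.expSeries_div_hasSum_exp (𝔸 := ℝ) (-y)
    rw [← Real.exp_eq_exp_ℝ] at h2
    have e : (fun j : ℕ => (-1 : ℝ) ^ j * (y ^ j / j.factorial)) =
        fun n : ℕ => (-y) ^ n / (n.factorial : ℝ) := by
      funext j
      rw [neg_eq_neg_one_mul y, mul_pow]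
      ring
    rw [e]
    exact h2
  have s3 : HasSum f (F a m 0 - Real.exp (-y)) := by
    have s4 : f = fun j : ℕ => (-1 : ℝ) ^ j * B j - (-1 : ℝ) ^ j * (y ^ j / j.factorial) := by
      funext j
      simp only [hf]; ring
    rw [s4]
    exact s1.sub s2
  have habs : ∀ j, |f j| = |B j - y ^ j / j.factorial| := by
    intro j
    simp only [hf]
    rw [abs_mul, abs_pow, abs_neg, abs_one, one_pow, one_mul]
  -- the first terms
  have p1 : |∑ j ∈ range (J + 1), f j| ≤ 3 * Real.exp (3 * X) * (δ + X / (m - 1)) := by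
    refine (Finset.abs_sum_le_sum_abs _ _).trans ?_
    rw [Finset.sum_range_succ']
    have z0 : |f 0| = 0 := by
      rw [habs]
      simp [hB, h.zero]
    rw [z0, add_zero]
    have z1 : ∑ j ∈ range J, |f (j + 1)| ≤
        ∑ j ∈ range J, 3 * (δ + X / (m - 1)) * ((3 * X) ^ j / j.factorial) := by
      refine Finset.sum_le_sum fun j hj => ?_
      have hj' := Finset.mem_range.1 hj
      rw [habs]
      simp only [hB]
      rw [if_pos (by omega)]
      exact h.term hm j (by omega)
    refine z1.trans ?_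
    rw [← Finset.mul_sum]
    have z2 := Real.sum_le_exp_of_nonneg (by linarith : 0 ≤ 3 * X) J
    have z3 := mul_le_mul_of_nonneg_left z2 (by linarith : 0 ≤ 3 * (δ + X / ((m : ℝ) - 1)))
    linarith
  -- the tail
  have p2 : ‖∑' j, f (j + (J + 1))‖ ≤ Real.exp (6 * X) * (1 / 2) ^ (m / 2) := by
    have hg : HasSum (fun j : ℕ => 2 * Real.exp (6 * X) * (1 / 2) ^ (J + 1) * (1 / 2 : ℝ) ^ j)
        (2 * Real.exp (6 * X) * (1 / 2) ^ (J + 1) * 2) := hasSum_geometric_two.mul_left _
    have e : 2 * Real.exp (6 * X) * (1 / 2) ^ (J + 1) * 2 =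
        Real.exp (6 * X) * (1 / 2 : ℝ) ^ (m / 2) := by
      rw [hJ, pow_succ, pow_succ]; ring
    rw [e] at hg
    refine tsum_of_norm_bounded hg fun j => ?_
    rw [Real.norm_eq_abs, habs]
    have b1 : |B (j + (J + 1))| ≤ Real.exp (6 * X) * (1 / 2) ^ (j + (J + 1)) := by
      simp only [hB]
      split_ifs with hj
      · rw [abs_of_nonneg (h.nonneg _)]
        exact h.bd hδ8 hm _ hj
      · rw [abs_zero]; positivity
    have b2 : |y ^ (j + (J + 1)) / ((j + (J + 1)).factorial : ℝ)| ≤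
        Real.exp (6 * X) * (1 / 2) ^ (j + (J + 1)) := by
      rw [abs_of_nonneg (by positivity)]
      have c1 : y ^ (j + (J + 1)) ≤ X ^ (j + (J + 1)) := pow_le_pow_left₀ hy0 h.yX _
      have c2 := pow_fact_le (by linarith : 0 ≤ 2 * X) (j + (J + 1))
      have c3 : Real.exp (2 * X) ≤ Real.exp (6 * X) := Real.exp_le_exp.2 (by linarith)
      calc y ^ (j + (J + 1)) / ((j + (J + 1)).factorial : ℝ) ≤
            X ^ (j + (J + 1)) / ((j + (J + 1)).factorial : ℝ) :=
              div_le_div_of_nonneg_right c1 (by positivity)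
        _ = (2 * X) ^ (j + (J + 1)) / ((j + (J + 1)).factorial : ℝ) *
              (1 / 2) ^ (j + (J + 1)) := by
              rw [mul_pow, one_div, inv_pow]
              field_simp
        _ ≤ Real.exp (6 * X) * (1 / 2) ^ (j + (J + 1)) :=
              mul_le_mul_of_nonneg_right (c2.trans c3) (by positivity)
    calc |B (j + (J + 1)) - y ^ (j + (J + 1)) / ((j + (J + 1)).factorial : ℝ)| ≤
          |B (j + (J + 1))| + |y ^ (j + (J + 1)) / ((j + (J + 1)).factorial : ℝ)| := abs_sub _ _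
      _ ≤ Real.exp (6 * X) * (1 / 2) ^ (j + (J + 1)) +
          Real.exp (6 * X) * (1 / 2) ^ (j + (J + 1)) := add_le_add b1 b2
      _ = 2 * Real.exp (6 * X) * (1 / 2) ^ (J + 1) * (1 / 2 : ℝ) ^ j := by
          rw [pow_add]; ring
  have p3 : F a m 0 - Real.exp (-y) = ∑ j ∈ range (J + 1), f j + ∑' j, f (j + (J + 1)) := by
    rw [← s3.tsum_eq]
    exact (s3.summable.sum_add_tsum_nat_add (J + 1)).symm
  rw [p3]
  refine (abs_add_le _ _).trans (add_le_add p1 ?_)
  rw [← Real.norm_eq_abs]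
  exact p2

/-- **the explicit range of positivity** -/
theorem expl {X δ : ℝ} {m : ℕ} (hX : 0 ≤ X) (hδ : δ ≤ Real.exp (-(4 * X)) / 12)
    (hm : 12 * (X + 1) * Real.exp (4 * X) ≤ m) :
    3 * Real.exp (3 * X) * (δ + X / (m - 1)) + Real.exp (6 * X) * (1 / 2) ^ (m / 2) ≤
      3 / 4 * Real.exp (-X) := by
  have e1 : 1 ≤ Real.exp (4 * X) := Real.one_le_exp (by linarith)
  have e2 : 4 * X + 1 ≤ Real.exp (4 * X) := Real.add_one_le_exp _
  have hm12 : (12 : ℝ) ≤ m := by nlinarith
  have ex : Real.exp (3 * X) * Real.exp (-(4 * X)) = Real.exp (-X) := by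
    rw [← Real.exp_add]; congr 1; ring
  -- first term
  have t1 : 3 * Real.exp (3 * X) * δ ≤ 1 / 4 * Real.exp (-X) := by
    have := mul_le_mul_of_nonneg_left hδ (by positivity : 0 ≤ 3 * Real.exp (3 * X))
    have e : 3 * Real.exp (3 * X) * (Real.exp (-(4 * X)) / 12) = 1 / 4 * Real.exp (-X) := by
      rw [← ex]; ring
    rw [e] at this
    exact this
  -- second term
  have t2 : 3 * Real.exp (3 * X) * (X / (m - 1)) ≤ 1 / 4 * Real.exp (-X) := by
    have h1 : 12 * X * Real.exp (4 * X) ≤ (m : ℝ) - 1 := by nlinarith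
    have h2 : X / ((m : ℝ) - 1) ≤ Real.exp (-(4 * X)) / 12 := by
      rw [div_le_iff₀ (by linarith)]
      have h3 := mul_le_mul_of_nonneg_left h1
        (by positivity : 0 ≤ Real.exp (-(4 * X)) / 12)
      have e : Real.exp (-(4 * X)) / 12 * (12 * X * Real.exp (4 * X)) = X := by
        have : Real.exp (-(4 * X)) * Real.exp (4 * X) = 1 := by
          rw [← Real.exp_add]; simp
        linear_combination X * this
      rw [e] at h3
      exact h3
    have := mul_le_mul_of_nonneg_left h2 (by positivity : 0 ≤ 3 * Real.exp (3 * X))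
    have e : 3 * Real.exp (3 * X) * (Real.exp (-(4 * X)) / 12) = 1 / 4 * Real.exp (-X) := by
      rw [← ex]; ring
    rw [e] at this
    exact this
  -- third term
  have t3 : Real.exp (6 * X) * (1 / 2 : ℝ) ^ (m / 2) ≤ 1 / 4 * Real.exp (-X) := by
    have h1 : (m : ℝ) / 2 - 1 / 2 ≤ ((m / 2 : ℕ) : ℝ) := by
      have : m ≤ 2 * (m / 2) + 1 := by omega
      have : (m : ℝ) ≤ 2 * ((m / 2 : ℕ) : ℝ) + 1 := by exact_mod_cast this
      linarith
    have h2 : 4 * (7 * X) / 2 + 3 ≤ ((m / 2 : ℕ) : ℝ) := by nlinarith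
    have h3 : Real.exp (7 * X + 3 / 2) ≤ 2 ^ (m / 2) := by
      have l2 : (0.6931471803 : ℝ) < Real.log 2 := Real.log_two_gt_d9
      have : (2 : ℝ) ^ (m / 2) = Real.exp (((m / 2 : ℕ) : ℝ) * Real.log 2) := by
        rw [← Real.log_pow, Real.exp_log (by positivity)]
      rw [this]
      refine Real.exp_le_exp.2 ?_
      nlinarith
    have h4 : (4 : ℝ) ≤ Real.exp (3 / 2) := by
      have : Real.exp (3 / 2) = Real.exp 1 * Real.exp (1 / 2) := by
        rw [← Real.exp_add]; norm_num
      have g1 := Real.exp_one_gt_d9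
      have g2 : (1 / 2 : ℝ) + 1 ≤ Real.exp (1 / 2) := Real.add_one_le_exp _
      rw [this]
      nlinarith
    have h5 : Real.exp (7 * X) * 4 ≤ 2 ^ (m / 2) := by
      rw [Real.exp_add] at h3
      have := mul_le_mul_of_nonneg_left h4 (Real.exp_pos (7 * X)).le
      linarith
    rw [one_div, inv_pow, ← div_eq_mul_inv, div_le_iff₀ (by positivity)]
    have h6 := mul_le_mul_of_nonneg_left h5 (by positivity : 0 ≤ 1 / 4 * Real.exp (-X))
    have e : 1 / 4 * Real.exp (-X) * (Real.exp (7 * X) * 4) = Real.exp (6 * X) := by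
      have : Real.exp (-X) * Real.exp (7 * X) = Real.exp (6 * X) := by
        rw [← Real.exp_add]; congr 1; ring
      rw [← this]; ring
    rw [e] at h6
    exact h6
  have e9 : 3 * Real.exp (3 * X) * (δ + X / (m - 1)) =
      3 * Real.exp (3 * X) * δ + 3 * Real.exp (3 * X) * (X / (m - 1)) := by ring
  rw [e9]
  linarith

end Pool.Agent.TH594.HA
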